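import Mathlib

set_option autoImplicit false

namespace Pool.Agent.Results.MP_b8ee47_co.All

open Finset

/-- exponent vector as a real vector -/
def ev {n : ℕ} (a : Fin n → ℕ) : Fin n → ℝ := fun i => a i

/-- the tropical polynomial with support A and coefficients c -/
noncomputable def trop {n : ℕ} (A : Finset (Fin n → ℕ)) (h : A.Nonempty) (c : (Fin n → ℕ) → ℝ)
    (x : Fin n → ℝ) : ℝ :=
  A.sup' h fun a => c a + ev a ⬝ᵥ x

/-- a unit: a tropical polynomial whose Legendre transform is affine on the Newton polytope -/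
def IsUnitTrop {n : ℕ} (f : (Fin n → ℝ) → ℝ) : Prop :=
  ∃ (A : Finset (Fin n → ℕ)) (h : A.Nonempty) (c : (Fin n → ℕ) → ℝ), f = trop A h c ∧
    ∃ (p : Fin n → ℝ) (d : ℝ), ∀ y ∈ convexHull ℝ (ev '' (A : Set (Fin n → ℕ))),
      IsLUB (Set.range fun x => y ⬝ᵥ x - f x) (d + y ⬝ᵥ p)

def RF {n : ℕ} : AddSubgroup ((Fin n → ℝ) → ℝ) where
  carrier := {f | ∃ g h : List ((Fin n → ℝ) → ℝ), (∀ u ∈ g, IsUnitTrop u) ∧
    (∀ u ∈ h, IsUnitTrop u) ∧ f + g.sum = h.sum}
  add_mem' := by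
    rintro f f' ⟨g, h, a1, a2, a3⟩ ⟨g', h', b1, b2, b3⟩
    refine ⟨g ++ g', h ++ h', fun u hu => ?_, fun u hu => ?_, ?_⟩
    · rcases List.mem_append.1 hu with hu | hu
      exacts [a1 u hu, b1 u hu]
    · rcases List.mem_append.1 hu with hu | hu
      exacts [a2 u hu, b2 u hu]
    · rw [List.sum_append, List.sum_append, ← a3, ← b3]; abel
  zero_mem' := ⟨[], [], by simp, by simp, by simp⟩
  neg_mem' := by
    rintro f ⟨g, h, a1, a2, a3⟩
    exact ⟨h, g, a2, a1, by rw [← a3]; abel⟩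

lemma unit_of_affine {n : ℕ} (A : Finset (Fin n → ℕ)) (h : A.Nonempty) (c : (Fin n → ℕ) → ℝ)
    (p : Fin n → ℝ) (d : ℝ) (hc : ∀ a ∈ A, c a = -d - ev a ⬝ᵥ p) : IsUnitTrop (trop A h c) := by
  refine ⟨A, h, c, rfl, p, d, fun y hy => ⟨?_, fun b hb => ?_⟩⟩
  · rintro _ ⟨x, rfl⟩
    have : convexHull ℝ (ev '' (A : Set (Fin n → ℕ))) ⊆
        {y | y ⬝ᵥ (x - p) ≤ trop A h c x + d} := by
      refine convexHull_min ?_ (convex_halfSpace_le
        ⟨fun a b => add_dotProduct _ _ _, fun s a => smul_dotProduct _ _ _⟩ _)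
      rintro _ ⟨a, ha, rfl⟩
      have := le_sup' (fun a => c a + ev a ⬝ᵥ x) ha
      simp only [Set.mem_ofPred_eq, dotProduct_sub, trop]
      rw [hc a ha] at this
      linarith
    have := this hy
    simp only [Set.mem_ofPred_eq, dotProduct_sub] at this
    linarith
  · have h1 := hb ⟨p, rfl⟩
    have h2 : trop A h c p ≤ -d := sup'_le _ _ fun a ha => by rw [hc a ha]; linarith
    simp only at h1
    linarith

lemma affine_of_indep {n : ℕ} (A : Finset (Fin n → ℕ)) (c : (Fin n → ℕ) → ℝ)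
    (hi : LinearIndependent ℝ fun a : A => ((1 : ℝ), ev a.1)) :
    ∃ (p : Fin n → ℝ) (d : ℝ), ∀ a ∈ A, c a = -d - ev a ⬝ᵥ p := by
  classical
  let w : A → ℝ × (Fin n → ℝ) := fun a => ((1 : ℝ), ev a.1)
  obtain ⟨g, hg⟩ := (Fintype.linearCombination ℝ w).exists_leftInverse_of_injective
    (LinearMap.ker_eq_bot.2 (linearIndependent_iff_injective_fintypeLinearCombination.1 hi))
  let φ := (Fintype.linearCombination ℝ fun a : A => -c a.1).comp g
  have hφ : ∀ a : A, φ (w a) = -c a.1 := by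
    intro a
    have e : w a = Fintype.linearCombination ℝ w (Pi.single a 1) := by simp
    have e2 := LinearMap.congr_fun hg (Pi.single a 1)
    simp only [LinearMap.comp_apply, LinearMap.id_apply] at e2
    simp only [φ, LinearMap.comp_apply]
    rw [e, e2]; simp
  refine ⟨fun i => φ (0, Pi.single i 1), φ (1, 0), fun a ha => ?_⟩
  have e : w ⟨a, ha⟩ = (1, 0) + ∑ i, ev a i • ((0 : ℝ), (Pi.single i 1 : Fin n → ℝ)) := by
    ext j
    · simp [w, Prod.fst_sum]
    · simp [w, Prod.snd_sum, Finset.sum_apply, Pi.single_apply]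
  have := hφ ⟨a, ha⟩
  rw [e, map_add, map_sum] at this
  simp only [map_smul, smul_eq_mul] at this
  simp only [dotProduct]
  linarith

noncomputable def F {n : ℕ} (c : (Fin n → ℕ) → ℝ) (A : Finset (Fin n → ℕ)) : (Fin n → ℝ) → ℝ :=
  if h : A.Nonempty then trop A h c else 0

lemma alt {n : ℕ} (c : (Fin n → ℕ) → ℝ) (A : Finset (Fin n → ℕ)) (l : (Fin n → ℕ) → ℝ)
    (h1 : ∑ a ∈ A, l a = 0) (h2 : ∑ a ∈ A, l a • ev a = 0) (h3 : 0 ≤ ∑ a ∈ A, l a * c a)
    (hp : ∃ a ∈ A, 0 < l a) (hn : (A.filter fun a => l a < 0).Nonempty) :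
    ∑ J ∈ (A.filter fun a => l a < 0).powerset, (-1 : ℤ) ^ #J • F c (A \ J) = 0 := by
  funext x
  set N := A.filter fun a => l a < 0 with hN
  let v : (Fin n → ℕ) → ℝ := fun a => c a + ev a ⬝ᵥ x
  obtain ⟨a0, ha0, hmin⟩ := exists_min_image N v hn
  obtain ⟨b, hb, hbN, hab⟩ : ∃ b ∈ A, b ∉ N ∧ v a0 ≤ v b := by
    by_contra hc
    push Not at hc
    have e : ∑ a ∈ A, l a * (v a - v a0) = ∑ a ∈ A, l a * c a := by
      have e1 : ∑ a ∈ A, l a * (ev a ⬝ᵥ x) = 0 := by
        have := congrArg (· ⬝ᵥ x) h2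
        simpa [sum_dotProduct] using this
      simp only [v, mul_sub, mul_add, sum_sub_distrib, sum_add_distrib, e1, ← sum_mul, h1]
      simp
    have : ∑ a ∈ A, l a * (v a - v a0) < ∑ a ∈ A, (0 : ℝ) := by
      refine sum_lt_sum (fun a ha => ?_) ?_
      · by_cases h : a ∈ N
        · have := hmin a h
          have := (mem_filter.1 h).2
          nlinarith
        · have h4 := hc a ha h
          have : ¬ l a < 0 := fun h' => h (mem_filter.2 ⟨ha, h'⟩)
          push Not at this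
          nlinarith
      · obtain ⟨a, ha, hl⟩ := hp
        have h4 := hc a ha fun h => by have := (mem_filter.1 h).2; linarith
        exact ⟨a, ha, by nlinarith⟩
    simp only [sum_const_zero] at this
    linarith
  rw [← insert_erase ha0, sum_powerset_insert (notMem_erase _ _), ← sum_add_distrib,
    Finset.sum_apply]
  refine sum_eq_zero fun J hJ => ?_
  have hJ' : J ⊆ N.erase a0 := mem_powerset.1 hJ
  have ha0J : a0 ∉ J := fun h => notMem_erase _ _ (hJ' h)
  have hb1 : b ∈ A \ insert a0 J := by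
    refine mem_sdiff.2 ⟨hb, fun h => hbN ?_⟩
    rcases mem_insert.1 h with rfl | h
    exacts [ha0, mem_of_mem_erase (hJ' h)]
  have hsub : A \ insert a0 J ⊆ A \ J := sdiff_subset_sdiff Subset.rfl (subset_insert _ _)
  have e : F c (A \ insert a0 J) x = F c (A \ J) x := by
    have n1 : (A \ insert a0 J).Nonempty := ⟨b, hb1⟩
    have n2 : (A \ J).Nonempty := ⟨b, hsub hb1⟩
    rw [F, F, dif_pos n1, dif_pos n2, trop, trop]
    refine le_antisymm (sup'_mono _ hsub _) (sup'_le _ _ fun a ha => ?_)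
    by_cases h : a = a0
    · subst h
      exact hab.trans (le_sup' v hb1)
    · refine le_sup' v (mem_sdiff.2 ⟨(mem_sdiff.1 ha).1, fun h' => ?_⟩)
      rcases mem_insert.1 h' with h' | h'
      exacts [h h', (mem_sdiff.1 ha).2 h']
  simp only [Pi.add_apply, Pi.smul_apply, card_insert_of_notMem ha0J, e, pow_succ]
  simp

lemma main {n : ℕ} (c : (Fin n → ℕ) → ℝ) (A : Finset (Fin n → ℕ)) : F c A ∈ RF := by
  induction A using Finset.strongInduction with
  | H A ih =>
  by_cases h : A.Nonempty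
  swap
  · rw [F, dif_neg h]; exact zero_mem _
  by_cases hi : LinearIndependent ℝ fun a : A => ((1 : ℝ), ev a.1)
  · obtain ⟨p, d, hc⟩ := affine_of_indep A c hi
    rw [F, dif_pos h]
    exact ⟨[], [trop A h c], by simp, by simpa using unit_of_affine A h c p d hc, by simp⟩
  obtain ⟨g, hg, a1, ha1⟩ := Fintype.not_linearIndependent_iff.1 hi
  obtain ⟨l, h1, h2, h3, h4⟩ : ∃ l : (Fin n → ℕ) → ℝ, ∑ a ∈ A, l a = 0 ∧
      ∑ a ∈ A, l a • ev a = 0 ∧ 0 ≤ ∑ a ∈ A, l a * c a ∧ ∃ a ∈ A, l a ≠ 0 := by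
    let l : (Fin n → ℕ) → ℝ := fun a => if h : a ∈ A then g ⟨a, h⟩ else 0
    have hl : ∀ a : A, l a = g a := fun a => dif_pos a.2
    have e1 : ∑ a ∈ A, l a = 0 := by
      rw [← sum_coe_sort]
      simpa [hl, Prod.fst_sum] using congrArg Prod.fst hg
    have e2 : ∑ a ∈ A, l a • ev a = 0 := by
      rw [← sum_coe_sort]
      simpa [hl, Prod.snd_sum] using congrArg Prod.snd hg
    have e3 : l a1 ≠ 0 := by rwa [hl]
    rcases le_total 0 (∑ a ∈ A, l a * c a) with h | h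
    · exact ⟨l, e1, e2, h, a1, a1.2, e3⟩
    · refine ⟨fun a => -l a, by simp [e1], by simp [e2], by simpa using h, a1, a1.2, by simpa⟩
  have hp : ∃ a ∈ A, 0 < l a := by
    by_contra hc
    push Not at hc
    obtain ⟨a, ha, hl⟩ := h4
    exact hl ((sum_eq_zero_iff_of_nonpos hc).1 h1 a ha)
  have hn : (A.filter fun a => l a < 0).Nonempty := by
    by_contra hc
    have hc' : ∀ a ∈ A, 0 ≤ l a := fun a ha => not_lt.1 fun h => hc ⟨a, mem_filter.2 ⟨ha, h⟩⟩
    obtain ⟨a, ha, hl⟩ := h4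
    exact hl ((sum_eq_zero_iff_of_nonneg hc').1 h1 a ha)
  have key := alt c A l h1 h2 h3 hp hn
  rw [← add_sum_erase _ _ (empty_mem_powerset _)] at key
  simp only [card_empty, pow_zero, sdiff_empty, one_smul] at key
  rw [eq_neg_of_add_eq_zero_left key]
  refine neg_mem (sum_mem fun J hJ => zsmul_mem (ih _ ?_) _)
  obtain ⟨hJ0, hJ⟩ := mem_erase.1 hJ
  exact sdiff_ssubset ((mem_powerset.1 hJ).trans (filter_subset _ _)) (nonempty_iff_ne_empty.2 hJ0)

theorem result (n : ℕ) (A : Finset (Fin n → ℕ)) (h : A.Nonempty) (c : (Fin n → ℕ) → ℝ) :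
    ∃ g h' : List ((Fin n → ℝ) → ℝ), (∀ u ∈ g, IsUnitTrop u) ∧ (∀ u ∈ h', IsUnitTrop u) ∧
      trop A h c + g.sum = h'.sum := by
  have := main c A
  rw [F, dif_pos h] at this
  exact this

end Pool.Agent.Results.MP_b8ee47_co.All
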